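import Mathlib

set_option autoImplicit false

open Set Filter Topology Metric

namespace Pool.Agent.Results.MP_12cf7c_an.NoSolution

/-- The torus R^n / Z^n. -/
abbrev Torus (n : ℕ) : Type := UnitAddTorus (Fin n)

/-- Momenta (and the universal cover of the torus). -/
abbrev Vec (n : ℕ) : Type := EuclideanSpace ℝ (Fin n)

/-- The covering map from R^n onto the torus. -/
def proj {n : ℕ} (x : Vec n) : Torus n := fun i => ((x i : ℝ) : UnitAddCircle)

/-- u is a global (continuous) viscosity subsolution of H(x,Du(x)) = c on the torus. -/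
def IsSubsolution {n : ℕ} (H : Torus n → Vec n → ℝ) (c : ℝ) (u : Torus n → ℝ) : Prop :=
  Continuous u ∧ ∀ (x : Vec n) (φ : Vec n → ℝ), ContDiffAt ℝ 1 φ x →
    IsLocalMax (fun y => u (proj y) - φ y) x → H (proj x) (gradient φ x) ≤ c

/-- u is a global (continuous) viscosity supersolution of H(x,Du(x)) = c on the torus. -/
def IsSupersolution {n : ℕ} (H : Torus n → Vec n → ℝ) (c : ℝ) (u : Torus n → ℝ) : Prop :=
  Continuous u ∧ ∀ (x : Vec n) (φ : Vec n → ℝ), ContDiffAt ℝ 1 φ x →
    IsLocalMin (fun y => u (proj y) - φ y) x → c ≤ H (proj x) (gradient φ x)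

/-- viscosity solution on the whole torus -/
def IsSolution {n : ℕ} (H : Torus n → Vec n → ℝ) (c : ℝ) (u : Torus n → ℝ) : Prop :=
  IsSubsolution H c u ∧ IsSupersolution H c u

/-- superlinearity: H(x,p)/|p| tends to infinity as |p| tends to infinity, uniformly in x -/
def Superlinear {n : ℕ} (H : Torus n → Vec n → ℝ) : Prop :=
  ∀ A : ℝ, ∃ R : ℝ, ∀ (x : Torus n) (p : Vec n), R ≤ ‖p‖ → A * ‖p‖ ≤ H x p

/-- the levels admitting a global subsolution -/
def Levels {n : ℕ} (H : Torus n → Vec n → ℝ) : Set ℝ := {c | ∃ u, IsSubsolution H c u}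

/-- the critical value c₀ -/
noncomputable def critical {n : ℕ} (H : Torus n → Vec n → ℝ) : ℝ := sInf (Levels H)

/-- the values u y - u x, over all global subsolutions u at the critical level -/
def Increments {n : ℕ} (H : Torus n → Vec n → ℝ) (x y : Torus n) : Set ℝ :=
  {r | ∃ u, IsSubsolution H (critical H) u ∧ r = u y - u x}

/-- the function S_x -/
noncomputable def S {n : ℕ} (H : Torus n → Vec n → ℝ) (x y : Torus n) : ℝ :=
  sSup (Increments H x y)

/-! ### The distance to the integers -/

theorem norm_of_close (t : ℝ) (k : ℤ) (h : |t - k| ≤ 1 / 2) : ‖(t : UnitAddCircle)‖ = |t - k| := by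
  have h1 : ((t : ℝ) : UnitAddCircle) = ((t - k : ℝ) : UnitAddCircle) := by
    rw [AddCircle.coe_sub]
    have : ((k : ℝ) : UnitAddCircle) = 0 := by
      rw [AddCircle.coe_eq_zero_iff]; exact ⟨k, by simp⟩
    rw [this, sub_zero]
  rw [h1, AddCircle.norm_coe_eq_abs_iff (p := (1 : ℝ)) one_ne_zero]
  simpa using h

/-- local isometry of the distance to the integers -/
theorem norm_local_isometry (t0 : ℝ) :
    ∀ᶠ t : ℝ in 𝓝 t0, |‖(t : UnitAddCircle)‖ - ‖(t0 : UnitAddCircle)‖| = |t - t0| := by
  set k : ℤ := round t0 with hk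
  have hr : |t0 - k| ≤ 1 / 2 := abs_sub_round t0
  have h0 : ‖(t0 : UnitAddCircle)‖ = |t0 - k| := norm_of_close t0 k hr
  rcases lt_or_eq_of_le hr with h | h
  · -- interior case
    have hev : ∀ᶠ t : ℝ in 𝓝 t0, |t - k| < 1 / 2 := by
      have hc : Continuous (fun t : ℝ => |t - k|) := by fun_prop
      exact hc.continuousAt.eventually_lt continuousAt_const h
    rcases lt_trichotomy (t0 - k) 0 with h2 | h2 | h2
    · have hev2 : ∀ᶠ t : ℝ in 𝓝 t0, t - k < 0 := by
        have hc : Continuous (fun t : ℝ => t - k) := by fun_prop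
        exact hc.continuousAt.eventually_lt continuousAt_const h2
      filter_upwards [hev, hev2] with t ht ht2
      rw [norm_of_close t k ht.le, h0, abs_of_neg ht2, abs_of_neg h2, ← abs_neg]
      congr 1; ring
    · filter_upwards [hev] with t ht
      have h3 : t0 = k := by linarith
      rw [norm_of_close t k ht.le, h0, h2, abs_zero, sub_zero, abs_abs, ← h3]
    · have hev2 : ∀ᶠ t : ℝ in 𝓝 t0, 0 < t - k := by
        have hc : Continuous (fun t : ℝ => t - k) := by fun_prop
        exact continuousAt_const.eventually_lt hc.continuousAt h2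
      filter_upwards [hev, hev2] with t ht ht2
      rw [norm_of_close t k ht.le, h0, abs_of_pos ht2, abs_of_pos h2]
      congr 1; ring
  · -- half-integer case
    obtain ⟨m, hm⟩ : ∃ m : ℤ, t0 = m + 1 / 2 := by
      rcases abs_eq (by norm_num : (0 : ℝ) ≤ 1 / 2) |>.1 h with h3 | h3
      · exact ⟨k, by linarith⟩
      · exact ⟨k - 1, by push_cast; linarith⟩
    have hev : ∀ᶠ t : ℝ in 𝓝 t0, |t - t0| < 1 / 2 := by
      have hc : Continuous (fun t : ℝ => |t - t0|) := by fun_prop
      exact hc.continuousAt.eventually_lt continuousAt_const (by simp)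
    filter_upwards [hev] with t ht
    rw [abs_lt] at ht
    rw [h0, h]
    rcases le_total t t0 with h4 | h4
    · have h5 : |t - m| = t - m := abs_of_nonneg (by linarith)
      rw [norm_of_close t m (by rw [h5]; linarith), h5, abs_of_nonpos (by linarith),
        abs_of_nonpos (by linarith)]
      linarith
    · have h5 : |t - (m + 1 : ℤ)| = m + 1 - t := by
        rw [abs_of_nonpos (by push_cast; linarith)]; push_cast; ring
      rw [norm_of_close t (m + 1) (by rw [h5]; linarith), h5, abs_of_nonpos (by linarith),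
        abs_of_nonneg (by linarith)]
      linarith

/-- away from half-integers, the distance to the integers is locally affine with slope ±1 -/
theorem norm_local_affine (t0 : ℝ) (h1 : ∀ k : ℤ, t0 ≠ k / 2) :
    ∃ σ : ℝ, σ ^ 2 = 1 ∧
      ∀ᶠ t : ℝ in 𝓝 t0, ‖(t : UnitAddCircle)‖ - ‖(t0 : UnitAddCircle)‖ = σ * (t - t0) := by
  set k : ℤ := round t0 with hk
  have hr : |t0 - k| ≤ 1 / 2 := abs_sub_round t0
  have h0 : ‖(t0 : UnitAddCircle)‖ = |t0 - k| := norm_of_close t0 k hr
  have hlt : |t0 - k| < 1 / 2 := by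
    refine lt_of_le_of_ne hr ?_
    intro h
    rcases abs_eq (by norm_num : (0 : ℝ) ≤ 1 / 2) |>.1 h with h3 | h3
    · exact h1 (2 * k + 1) (by push_cast; linarith)
    · exact h1 (2 * k - 1) (by push_cast; linarith)
  have hne : t0 - k ≠ 0 := by
    intro h
    exact h1 (2 * k) (by push_cast; linarith)
  have hev : ∀ᶠ t : ℝ in 𝓝 t0, |t - k| < 1 / 2 := by
    have hc : Continuous (fun t : ℝ => |t - k|) := by fun_prop
    exact hc.continuousAt.eventually_lt continuousAt_const hlt
  rcases lt_or_gt_of_ne hne with h2 | h2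
  · refine ⟨-1, by norm_num, ?_⟩
    have hev2 : ∀ᶠ t : ℝ in 𝓝 t0, t - k < 0 := by
      have hc : Continuous (fun t : ℝ => t - k) := by fun_prop
      exact hc.continuousAt.eventually_lt continuousAt_const h2
    filter_upwards [hev, hev2] with t ht ht2
    rw [norm_of_close t k ht.le, h0, abs_of_neg ht2, abs_of_neg h2]; ring
  · refine ⟨1, by norm_num, ?_⟩
    have hev2 : ∀ᶠ t : ℝ in 𝓝 t0, 0 < t - k := by
      have hc : Continuous (fun t : ℝ => t - k) := by fun_prop
      exact continuousAt_const.eventually_lt hc.continuousAt h2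
    filter_upwards [hev, hev2] with t ht ht2
    rw [norm_of_close t k ht.le, h0, abs_of_pos ht2, abs_of_pos h2]; ring

/-! ### The Hamiltonian -/

/-- potential part: (1/2) sin^2 (2 π z) on the circle -/
noncomputable def pot (z : UnitAddCircle) : ℝ := (1 / 2) * (AddCircle.toCircle z : ℂ).im ^ 2

theorem pot_coe (t : ℝ) : pot (t : UnitAddCircle) = (1 / 2) * Real.sin (2 * Real.pi * t) ^ 2 := by
  unfold pot
  rw [AddCircle.toCircle_apply_mk, Circle.coe_exp]
  rw [Complex.exp_ofReal_mul_I_im]
  simp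

theorem pot_nonneg (z : UnitAddCircle) : 0 ≤ pot z := by unfold pot; positivity

theorem pot_le (z : UnitAddCircle) : pot z ≤ 1 / 2 := by
  induction z using QuotientAddGroup.induction_on with
  | H t =>
    have h1 := pot_coe t
    have h2 := Real.sin_sq_le_one (2 * Real.pi * t)
    have : pot (t : UnitAddCircle) ≤ 1 / 2 := by rw [h1]; linarith
    exact this

theorem pot_continuous : Continuous pot := by
  unfold pot
  exact continuous_const.mul ((Complex.continuous_im.comp
    (continuous_subtype_val.comp AddCircle.continuous_toCircle)).pow 2)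

theorem pot_half (k : ℤ) : pot ((k / 2 : ℝ) : UnitAddCircle) = 0 := by
  rw [pot_coe]
  have : 2 * Real.pi * ((k : ℝ) / 2) = k * Real.pi := by ring
  rw [this, Real.sin_int_mul_pi]; simp

/-- the counterexample -/
noncomputable def Ham {n : ℕ} (i : Fin n) (z : Torus n) (p : Vec n) : ℝ :=
  ‖p‖ ^ 4 - 2 * ‖p‖ ^ 2 + pot (z i)

theorem Ham_continuous {n : ℕ} (i : Fin n) :
    Continuous (fun q : Torus n × Vec n => Ham i q.1 q.2) := by
  unfold Ham
  have h1 : Continuous (fun q : Torus n × Vec n => pot (q.1 i)) :=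
    pot_continuous.comp ((continuous_apply i).comp continuous_fst)
  fun_prop

theorem Ham_superlinear {n : ℕ} (i : Fin n) : Superlinear (Ham (n := n) i) := by
  intro A
  refine ⟨max 2 |A|, ?_⟩
  intro x p hp
  have h2 : 2 ≤ ‖p‖ := (le_max_left _ _).trans hp
  have hA : A ≤ ‖p‖ := (le_abs_self A).trans ((le_max_right _ _).trans hp)
  have h3 := pot_nonneg (x i)
  unfold Ham
  nlinarith [mul_nonneg (by linarith : 0 ≤ ‖p‖) (by linarith : 0 ≤ ‖p‖ - A),
    mul_nonneg (sq_nonneg ‖p‖) (by nlinarith : 0 ≤ ‖p‖ ^ 2 - 4)]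

theorem proj_continuous {n : ℕ} : Continuous (proj (n := n)) := by
  unfold proj
  apply continuous_pi
  intro i
  exact (AddCircle.continuous_mk' 1).comp (by fun_prop)

theorem proj_surjective {n : ℕ} (z : Torus n) : ∃ x : Vec n, proj x = z := by
  have h : ∀ i, ∃ t : ℝ, (t : UnitAddCircle) = z i := fun i => by
    obtain ⟨t, ht⟩ := QuotientAddGroup.mk_surjective (z i)
    exact ⟨t, ht⟩
  choose t ht using h
  exact ⟨WithLp.toLp 2 t, funext fun i => by simp [proj, ht]⟩

/-! ### Calculus lemmas -/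

theorem hasDerivAt_line {n : ℕ} {φ : Vec n → ℝ} {x : Vec n} (hφ : ContDiffAt ℝ 1 φ x) (v : Vec n) :
    HasDerivAt (fun t : ℝ => φ (x + t • v)) (inner ℝ (gradient φ x) v) 0 := by
  have h1 : HasFDerivAt φ (fderiv ℝ φ x) x :=
    (hφ.differentiableAt (by norm_num)).hasFDerivAt
  have h2 : HasDerivAt (fun t : ℝ => x + t • v) v 0 := by
    have := ((hasDerivAt_id (0 : ℝ)).smul_const v).const_add x
    simpa using this
  have h3 : HasFDerivAt φ (fderiv ℝ φ x) (x + (0 : ℝ) • v) := by simpa using h1
  have h4 := h3.comp_hasDerivAt (0 : ℝ) h2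
  have h5 : fderiv ℝ φ x v = inner ℝ (gradient φ x) v := by
    rw [← toDual_gradient]; simp
  rw [h5] at h4
  exact h4

theorem deriv_ge_of_right {f : ℝ → ℝ} {q c : ℝ} (hf : HasDerivAt f q 0)
    (h : ∀ᶠ t : ℝ in 𝓝[>] 0, c * t ≤ f t - f 0) : c ≤ q := by
  have h1 := hf.tendsto_slope_zero_right
  apply ge_of_tendsto h1
  filter_upwards [h, self_mem_nhdsWithin] with t ht hpos
  have hpos' : 0 < t := hpos
  rw [zero_add, smul_eq_mul, le_inv_mul_iff₀ hpos']
  linarith

theorem deriv_le_of_left {f : ℝ → ℝ} {q c : ℝ} (hf : HasDerivAt f q 0)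
    (h : ∀ᶠ t : ℝ in 𝓝[<] 0, c * t ≤ f t - f 0) : q ≤ c := by
  have h1 := hf.tendsto_slope_zero_left
  apply le_of_tendsto h1
  filter_upwards [h, self_mem_nhdsWithin] with t ht hneg
  have hneg' : t < 0 := hneg
  rw [zero_add, smul_eq_mul, inv_mul_eq_div, div_le_iff_of_neg hneg']
  linarith

/-! ### Two subsolutions -/

/-- For s = ±1, the function z ↦ s * dist(z_i, 0) is a subsolution at level 0. -/
theorem dist_subsolution {n : ℕ} (i : Fin n) (s : ℝ) (hs : s ^ 2 = 1) :
    IsSubsolution (Ham i) 0 (fun z : Torus n => s * ‖z i‖) := by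
  refine ⟨continuous_const.mul (continuous_norm.comp (continuous_apply i)), ?_⟩
  intro x φ hφ hmax
  set p := gradient φ x with hp
  -- along lines
  have hline : ∀ v : Vec n, ∀ᶠ t : ℝ in 𝓝 0,
      s * (‖((x i + t * v i : ℝ) : UnitAddCircle)‖ - ‖((x i : ℝ) : UnitAddCircle)‖) ≤
        φ (x + t • v) - φ x := by
    intro v
    have hc : Tendsto (fun t : ℝ => x + t • v) (𝓝 0) (𝓝 x) := by
      have : Continuous (fun t : ℝ => x + t • v) := by fun_prop
      simpa using this.tendsto 0
    filter_upwards [hc.eventually hmax] with t ht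
    simp only [proj, PiLp.add_apply, PiLp.smul_apply, smul_eq_mul] at ht
    linarith
  have hzero : ∀ v : Vec n, v i = 0 → inner ℝ p v = 0 := by
    intro v hv
    have h1 := hasDerivAt_line hφ v
    have h2 : ∀ᶠ t : ℝ in 𝓝 0, (0 : ℝ) * t ≤ φ (x + t • v) - φ (x + (0 : ℝ) • v) := by
      filter_upwards [hline v] with t ht
      simpa [hv] using ht
    exact le_antisymm (deriv_le_of_left h1 (h2.filter_mono nhdsWithin_le_nhds))
      (deriv_ge_of_right h1 (h2.filter_mono nhdsWithin_le_nhds))
  have hpj : ∀ j, j ≠ i → p j = 0 := by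
    intro j hj
    have := hzero (EuclideanSpace.single j 1) (by simp [Ne.symm hj])
    simpa [EuclideanSpace.inner_single_right] using this
  have hnorm : ‖p‖ ^ 2 = p i ^ 2 := by
    rw [EuclideanSpace.real_norm_sq_eq]
    apply Finset.sum_eq_single i
    · intro j _ hj; rw [hpj j hj]; ring
    · intro h; exact absurd (Finset.mem_univ i) h
  have hder : HasDerivAt (fun t : ℝ => φ (x + t • EuclideanSpace.single i (1 : ℝ))) (p i) 0 := by
    have h1 := hasDerivAt_line hφ (EuclideanSpace.single i (1 : ℝ))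
    have h2 : inner ℝ (gradient φ x) (EuclideanSpace.single i (1 : ℝ)) = p i := by
      rw [EuclideanSpace.inner_single_right]; simp [hp]
    rw [h2] at h1
    exact h1
  have hline1 := hline (EuclideanSpace.single i (1 : ℝ))
  simp only [PiLp.single_apply, if_true, mul_one] at hline1
  have hshift : Tendsto (fun t : ℝ => x i + t) (𝓝 0) (𝓝 (x i)) := by
    have : Continuous (fun t : ℝ => x i + t) := by fun_prop
    simpa using this.tendsto 0
  show ‖p‖ ^ 4 - 2 * ‖p‖ ^ 2 + pot ((x i : ℝ) : UnitAddCircle) ≤ 0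
  have h4 : ‖p‖ ^ 4 = (p i ^ 2) ^ 2 := by rw [← hnorm]; ring
  rw [h4, hnorm]
  by_cases hx : ∀ k : ℤ, x i ≠ k / 2
  · obtain ⟨σ, hσ, hloc⟩ := norm_local_affine (x i) hx
    have h5 : ∀ᶠ t : ℝ in 𝓝 0, (s * σ) * t ≤
        φ (x + t • EuclideanSpace.single i (1 : ℝ)) -
          φ (x + (0 : ℝ) • EuclideanSpace.single i (1 : ℝ)) := by
      filter_upwards [hline1, hshift.eventually hloc] with t ht1 ht2
      rw [zero_smul, add_zero]
      rw [ht2] at ht1
      calc s * σ * t = s * (σ * (x i + t - x i)) := by ring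
        _ ≤ _ := ht1
    have h6 : p i = s * σ := le_antisymm
      (deriv_le_of_left hder (h5.filter_mono nhdsWithin_le_nhds))
      (deriv_ge_of_right hder (h5.filter_mono nhdsWithin_le_nhds))
    have h7 : p i ^ 2 = 1 := by rw [h6, mul_pow, hs, hσ, one_mul]
    rw [h7]
    have := pot_le ((x i : ℝ) : UnitAddCircle)
    linarith
  · push Not at hx
    obtain ⟨k, hk⟩ := hx
    rw [hk, pot_half]
    have habs : ∀ᶠ t : ℝ in 𝓝 0, - |t| ≤
        φ (x + t • EuclideanSpace.single i (1 : ℝ)) -
          φ (x + (0 : ℝ) • EuclideanSpace.single i (1 : ℝ)) := by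
      filter_upwards [hline1, hshift.eventually (norm_local_isometry (x i))] with t ht1 ht2
      rw [zero_smul, add_zero]
      rw [add_sub_cancel_left] at ht2
      have hs1 : |s| = 1 := by
        rw [← sq_abs] at hs
        nlinarith [abs_nonneg s]
      have h3 := neg_abs_le (s * (‖((x i + t : ℝ) : UnitAddCircle)‖ -
        ‖((x i : ℝ) : UnitAddCircle)‖))
      rw [abs_mul, hs1, one_mul, ht2] at h3
      linarith
    have hge : -1 ≤ p i := by
      apply deriv_ge_of_right hder
      filter_upwards [habs.filter_mono nhdsWithin_le_nhds, self_mem_nhdsWithin] with t ht hpos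
      have hpos' : 0 < t := hpos
      rw [abs_of_pos hpos'] at ht
      linarith
    have hle : p i ≤ 1 := by
      apply deriv_le_of_left hder
      filter_upwards [habs.filter_mono nhdsWithin_le_nhds, self_mem_nhdsWithin] with t ht hneg
      have hneg' : t < 0 := hneg
      rw [abs_of_neg hneg'] at ht
      linarith
    have h7 : p i ^ 2 ≤ 1 := by nlinarith
    nlinarith [sq_nonneg (p i)]

/-! ### The critical value is 0 -/

theorem level_nonneg {n : ℕ} (i : Fin n) (c : ℝ) (u : Torus n → ℝ)
    (hu : IsSubsolution (Ham i) c u) : 0 ≤ c := by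
  obtain ⟨z, -, hz⟩ := isCompact_univ.exists_isMaxOn (univ_nonempty (α := Torus n))
    hu.1.continuousOn
  obtain ⟨x, rfl⟩ := proj_surjective z
  have h1 := hu.2 x (fun _ => 0) contDiffAt_const (by
    apply Filter.Eventually.of_forall
    intro y
    have := hz (mem_univ (proj y))
    simpa using this)
  have h2 : gradient (fun _ : Vec n => (0 : ℝ)) x = 0 := by
    simp [gradient]
  rw [h2] at h1
  have h3 := pot_nonneg (proj x i)
  simp only [Ham, norm_zero] at h1
  linarith

theorem levels_nonempty {n : ℕ} (i : Fin n) : (Levels (Ham i)).Nonempty :=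
  ⟨0, _, dist_subsolution i 1 (by norm_num)⟩

theorem levels_bddBelow {n : ℕ} (i : Fin n) : BddBelow (Levels (Ham i)) :=
  ⟨0, fun c hc => by obtain ⟨u, hu⟩ := hc; exact level_nonneg i c u hu⟩

theorem critical_eq {n : ℕ} (i : Fin n) : critical (Ham i) = 0 := by
  apply le_antisymm
  · exact csInf_le (levels_bddBelow i) ⟨_, dist_subsolution i 1 (by norm_num)⟩
  · apply le_csInf (levels_nonempty i)
    intro c hc
    obtain ⟨u, hu⟩ := hc; exact level_nonneg i c u hu

/-! ### A priori Lipschitz bound, so that S is a genuine supremum -/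

theorem gradient_norm_dist {n : ℕ} (i : Fin n) (x y : Vec n) (h : y ≠ x) :
    ContDiffAt ℝ 1 (fun y => 2 * ‖y - x‖) y ∧ ‖gradient (fun y => 2 * ‖y - x‖) y‖ = 2 := by
  have : Nonempty (Fin n) := ⟨i⟩
  have hne : y - x ≠ 0 := sub_ne_zero.2 h
  have h1 : ContDiffAt ℝ 1 (fun y : Vec n => ‖y - x‖) y :=
    (contDiffAt_norm ℝ hne).comp y (contDiffAt_id.sub contDiffAt_const)
  refine ⟨contDiffAt_const.mul h1, ?_⟩
  have h2 : ‖gradient (fun y => 2 * ‖y - x‖) y‖ = ‖fderiv ℝ (fun y => 2 * ‖y - x‖) y‖ := by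
    rw [← toDual_gradient, LinearIsometryEquiv.norm_map]
  rw [h2]
  have h3 : fderiv ℝ (fun y => 2 * ‖y - x‖) y = (2 : ℝ) • fderiv ℝ (fun y => ‖y - x‖) y := by
    have := fderiv_const_smul (h1.differentiableAt (by norm_num)) (2 : ℝ)
    exact this
  rw [h3, norm_smul]
  have h4 : fderiv ℝ (fun y => ‖y - x‖) y = fderiv ℝ (fun y => ‖y‖) (y - x) := by
    have := fderiv_comp_sub (𝕜 := ℝ) (f := fun y : Vec n => ‖y‖) (x := y) x
    exact this
  rw [h4, norm_fderiv_norm ((contDiffAt_norm ℝ hne (n := 1)).differentiableAt (by norm_num))]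
  norm_num

theorem subsolution_lipschitz {n : ℕ} (i : Fin n) (u : Torus n → ℝ)
    (hu : IsSubsolution (Ham i) 0 u) (x y : Vec n) : u (proj y) - u (proj x) ≤ 2 * ‖y - x‖ := by
  obtain ⟨zM, -, hzM⟩ := isCompact_univ.exists_isMaxOn (univ_nonempty (α := Torus n))
    hu.1.continuousOn
  set M := u zM with hM
  have hMle : ∀ z, u z ≤ M := fun z => hzM (mem_univ z)
  set R := (M - u (proj x)) / 2 + 1 with hR
  have hRpos : 0 < R := by
    have := hMle (proj x)
    rw [hR]; linarith
  set F : Vec n → ℝ := fun y => u (proj y) - 2 * ‖y - x‖ with hF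
  have hFc : Continuous F :=
    (hu.1.comp proj_continuous).sub (continuous_const.mul (continuous_id.sub continuous_const).norm)
  obtain ⟨y1, hy1, hmax⟩ := (isCompact_closedBall x R).exists_isMaxOn
    ⟨x, mem_closedBall_self hRpos.le⟩ hFc.continuousOn
  have hglob : ∀ y, F y ≤ F y1 := by
    intro y
    by_cases hy : y ∈ closedBall x R
    · exact hmax hy
    · have h1 : R < ‖y - x‖ := by
        rw [mem_closedBall, dist_eq_norm] at hy; linarith
      have h2 : F x ≤ F y1 := hmax (mem_closedBall_self hRpos.le)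
      have h3 : F x = u (proj x) := by simp [hF]
      have h4 : F y ≤ M - 2 * R := by
        have := hMle (proj y)
        simp only [hF]; linarith
      have h5 : M - 2 * R = u (proj x) - 2 := by rw [hR]; ring
      linarith
  by_cases hyx : y1 = x
  · have := hglob y
    rw [hyx] at this
    simp only [hF, sub_self, norm_zero, mul_zero, sub_zero] at this
    linarith
  · exfalso
    obtain ⟨hsm, hgr⟩ := gradient_norm_dist i x y1 hyx
    have := hu.2 y1 _ hsm (Filter.Eventually.of_forall hglob)
    have h3 := pot_nonneg (proj y1 i)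
    simp only [Ham, hgr] at this
    linarith

theorem increments_bddAbove {n : ℕ} (i : Fin n) (x y : Torus n) :
    BddAbove (Increments (Ham i) x y) := by
  obtain ⟨a, rfl⟩ := proj_surjective x
  obtain ⟨b, rfl⟩ := proj_surjective y
  refine ⟨2 * ‖b - a‖, ?_⟩
  rintro r ⟨u, hu, rfl⟩
  rw [critical_eq] at hu
  exact subsolution_lipschitz i u hu a b

theorem increments_nonempty {n : ℕ} (i : Fin n) (x y : Torus n) :
    (Increments (Ham i) x y).Nonempty := by
  refine ⟨_, fun z => 1 * ‖z i‖, ?_, rfl⟩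
  rw [critical_eq]; exact dist_subsolution i 1 (by norm_num)

/-- S_x lies above | dist(y_i) - dist(x_i) |. -/
theorem S_ge {n : ℕ} (i : Fin n) (x y : Torus n) : |‖y i‖ - ‖x i‖| ≤ S (Ham i) x y := by
  have h1 : ∀ s : ℝ, s ^ 2 = 1 → s * ‖y i‖ - s * ‖x i‖ ≤ S (Ham i) x y := by
    intro s hs
    apply le_csSup (increments_bddAbove i x y)
    refine ⟨fun z => s * ‖z i‖, ?_, rfl⟩
    rw [critical_eq]; exact dist_subsolution i s hs
  rw [abs_le]
  constructor
  · have := h1 (-1) (by norm_num); linarith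
  · have := h1 1 (by norm_num); linarith

theorem S_self {n : ℕ} (i : Fin n) (x : Torus n) : S (Ham i) x x = 0 := by
  unfold S
  have : Increments (Ham i) x x = {0} := by
    ext r
    constructor
    · rintro ⟨u, _, rfl⟩; simp
    · rintro rfl
      obtain ⟨r, u, hu, hr⟩ := increments_nonempty i x x
      exact ⟨u, hu, by simp⟩
  rw [this, csSup_singleton]

/-- S_x is not a supersolution at the point x. -/
theorem S_not_supersolution {n : ℕ} (i : Fin n) (x : Torus n) :
    ¬ IsSupersolution (Ham i) (critical (Ham i)) (S (Ham i) x) := by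
  intro hS
  obtain ⟨a, rfl⟩ := proj_surjective x
  rw [critical_eq] at hS
  set e : Vec n := EuclideanSpace.single i 1 with he
  have hgrad : ∀ y, HasGradientAt (fun y : Vec n => inner ℝ e y) e y := by
    intro y
    rw [hasGradientAt_iff_hasFDerivAt]
    exact (InnerProductSpace.toDual ℝ (Vec n) e).hasFDerivAt
  have hsm : ContDiffAt ℝ 1 (fun y : Vec n => inner ℝ e y) a :=
    contDiffAt_const.inner ℝ contDiffAt_id
  have hin : ∀ y : Vec n, inner ℝ e y = y i := by
    intro y; simp [he, EuclideanSpace.inner_single_left]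
  have hloc : IsLocalMin (fun y => S (Ham i) (proj a) (proj y) - inner ℝ e y) a := by
    have hc : Tendsto (fun y : Vec n => y i) (𝓝 a) (𝓝 (a i)) := by
      have : Continuous (fun y : Vec n => y i) := by fun_prop
      exact this.tendsto a
    filter_upwards [hc.eventually (norm_local_isometry (a i))] with y hy
    rw [S_self, hin, hin]
    have h1 := S_ge i (proj a) (proj y)
    have h2 : |‖proj y i‖ - ‖proj a i‖| = |y i - a i| := hy
    rw [h2] at h1
    have h3 := le_abs_self (y i - a i)
    linarith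
  have h1 := hS.2 a _ hsm hloc
  rw [(hgrad a).gradient] at h1
  have h2 : ‖e‖ = 1 := by simp [he]
  have h3 := pot_le (proj a i)
  simp only [Ham, h2] at h1
  linarith

/-- Negative answer to Q1, in every dimension n ≥ 1. The Hamiltonian
H(x,p) = |p|^4 - 2 |p|^2 + (1/2) sin^2 (2 π x_1) is continuous and superlinear in p uniformly in x,
the critical value c₀ and all the functions S_x are well defined (the infimum and the suprema are
over nonempty bounded sets), and S_x is not a viscosity solution of H(y, DS_x(y)) = c₀ on the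
torus, for every point x of the torus. -/
theorem result : ∀ (n : ℕ) (hn : 1 ≤ n), ∃ H : Torus n → Vec n → ℝ,
    (∀ x p : Vec n, H (proj x) p =
      ‖p‖ ^ 4 - 2 * ‖p‖ ^ 2 + (1 / 2) * Real.sin (2 * Real.pi * x ⟨0, hn⟩) ^ 2) ∧
    Continuous (fun q : Torus n × Vec n => H q.1 q.2) ∧ Superlinear H ∧
    (Levels H).Nonempty ∧ BddBelow (Levels H) ∧
    (∀ x y, (Increments H x y).Nonempty ∧ BddAbove (Increments H x y)) ∧
    ∀ x : Torus n, ¬ IsSolution H (critical H) (S H x) := by
  intro n hn
  refine ⟨Ham ⟨0, hn⟩, ?_, Ham_continuous _, Ham_superlinear _, levels_nonempty _,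
    levels_bddBelow _, fun x y => ⟨increments_nonempty _ x y, increments_bddAbove _ x y⟩, ?_⟩
  · intro x p
    rw [← pot_coe]; rfl
  · intro x hx
    exact S_not_supersolution _ x hx.2

end Pool.Agent.Results.MP_12cf7c_an.NoSolution
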